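import Pool.Agent.H495R2.Dk.Final

/-!
Numbers of prime factors of shifted integers `n + h_i`, all residue classes, no admissibility.
-/

set_option autoImplicit false

open Finset

namespace Pool.Agent.H447R3.PF

open Pool.Agent.H81R2.EDT3 (dvd_div_gcd)
open Pool.Agent.H495R2.Dk (om_mul)
open Pool.Agent.H410R2.ED (om)

/-- `k` linear forms whose leading coefficients are prime to `p > k` -/
theorem exists_good {k p : ℕ} (hp : p.Prime) (hkp : k < p) (A B : Fin k → ℕ)
    (hA : ∀ i, ¬ p ∣ A i) : ∃ n : ℕ, ∀ i, ¬ p ∣ A i * n + B i := by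
  classical
  by_contra hcon
  push Not at hcon
  have h1 : ∀ c : Fin (k + 1), ∃ l, p ∣ A l * c + B l := fun c => hcon c
  choose f hf using h1
  obtain ⟨c, c', hcc, hff⟩ := Fintype.exists_ne_map_eq_of_card_lt f (by simp)
  have key : ∀ u v : ℕ, u < v → v ≤ k → ∀ l, p ∣ A l * u + B l → p ∣ A l * v + B l → False := by
    intro u v huv hv l h1 h2
    have h3 : p ∣ A l * (v - u) := by
      have := Nat.dvd_sub h2 h1
      have e2 : A l * v + B l - (A l * u + B l) = A l * (v - u) := by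
        rw [Nat.mul_sub]; omega
      rwa [e2] at this
    rcases (hp.dvd_mul).1 h3 with h4 | h4
    · exact hA l h4
    · have := Nat.le_of_dvd (by omega) h4
      omega
  have h2 := hf c
  have h3 := hf c'
  rw [← hff] at h3
  have hne : (c : ℕ) ≠ c' := fun h => hcc (Fin.ext h)
  have hc1 : (c : ℕ) ≤ k := by have := c.2; omega
  have hc2 : (c' : ℕ) ≤ k := by have := c'.2; omega
  rcases lt_or_gt_of_ne hne with h | h
  · exact key _ _ h hc2 _ h2 h3
  · exact key _ _ h hc1 _ h3 h2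

theorem om_dvd_le {m n : ℕ} (h : m ∣ n) (hn : n ≠ 0) : om m ≤ om n :=
  card_le_card (Nat.primeFactors_mono h hn)

theorem om_pow {n E : ℕ} (hE : E ≠ 0) : om (n ^ E) = om n := by
  unfold om
  rw [Nat.primeFactors_pow n hE]

theorem om_factorial (k : ℕ) : om k.factorial ≤ k := by
  unfold om
  have h : k.factorial.primeFactors ⊆ Finset.Icc 1 k := by
    intro p hp
    have hpp := Nat.prime_of_mem_primeFactors hp
    have hpd := Nat.dvd_of_mem_primeFactors hp
    rw [Finset.mem_Icc]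
    exact ⟨hpp.one_lt.le, (hpp.dvd_factorial).1 hpd⟩
  have := card_le_card h
  simpa using this

/-- **Numbers of prime factors of `n + h_i`.** -/
theorem shifts (k : ℕ) : ∃ r0 R : ℕ, ∀ h : Fin k → ℕ, Function.Injective h →
    ∀ q a : ℕ, 0 < q → ∀ r : Fin k → ℕ, (∀ i, r0 + q.primeFactors.card ≤ r i) →
    ∃ C : ℕ, ∀ N : ℕ, ∃ n : ℕ, N ≤ n ∧ n ≡ a [MOD q] ∧
      ∀ i, (n + h i).primeFactors.card = r i ∧ ∃ c s : ℕ, n + h i = c * s ∧ c ≤ C ∧
        Squarefree s ∧ ∀ p : ℕ, p.Prime → p ∣ s → n ≤ p ^ R := by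
  classical
  obtain ⟨r0, R, hall⟩ := Pool.Agent.H495R2.Dk.all k
  refine ⟨r0 + k, 2 * R, ?_⟩
  intro h hh q a hq r hr
  obtain ⟨n0, hn0⟩ : ∃ n0 : ℕ, n0 = a + q := ⟨_, rfl⟩
  obtain ⟨E, hE⟩ : ∃ E : ℕ, E = ∑ i, (n0 + h i) + 1 := ⟨_, rfl⟩
  have hEv : ∀ i, n0 + h i < E := by
    intro i
    have := Finset.single_le_sum (f := fun i => n0 + h i) (fun _ _ => Nat.zero_le _) (mem_univ i)
    omega
  obtain ⟨M, hM⟩ : ∃ M : ℕ, M = k.factorial * q := ⟨_, rfl⟩
  have hMpos : 0 < M := by rw [hM]; exact Nat.mul_pos (Nat.factorial_pos _) hq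
  obtain ⟨D, hD⟩ : ∃ D : ℕ, D = M ^ E := ⟨_, rfl⟩
  have hE0 : E ≠ 0 := by omega
  have hDpos : 0 < D := by rw [hD]; exact Nat.pow_pos hMpos
  have hMD : M ∣ D := by rw [hD]; exact dvd_pow_self _ hE0
  have homD : om D ≤ k + q.primeFactors.card := by
    rw [hD, om_pow hE0, hM]
    unfold om
    rw [Nat.primeFactors_mul (Nat.factorial_pos _).ne' hq.ne']
    refine (card_union_le _ _).trans ?_
    have := om_factorial k
    unfold om at this
    omega
  obtain ⟨g, hg⟩ : ∃ g : Fin k → ℕ, ∀ i, g i = Nat.gcd D (n0 + h i) := ⟨_, fun _ => rfl⟩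
  obtain ⟨A, hA⟩ : ∃ A : Fin k → ℕ, ∀ i, A i = D / g i := ⟨_, fun _ => rfl⟩
  obtain ⟨B, hB⟩ : ∃ B : Fin k → ℕ, ∀ i, B i = (n0 + h i) / g i := ⟨_, fun _ => rfl⟩
  have hgD : ∀ i, g i ∣ D := fun i => by rw [hg]; exact Nat.gcd_dvd_left _ _
  have hgn : ∀ i, g i ∣ n0 + h i := fun i => by rw [hg]; exact Nat.gcd_dvd_right _ _
  have hgpos : ∀ i, 0 < g i := fun i => Nat.pos_of_dvd_of_pos (hgD i) hDpos
  have hgA : ∀ i, g i * A i = D := fun i => by rw [hA]; exact Nat.mul_div_cancel' (hgD i)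
  have hgB : ∀ i, g i * B i = n0 + h i := fun i => by rw [hB]; exact Nat.mul_div_cancel' (hgn i)
  have hApos : ∀ i, 0 < A i := by
    intro i
    rcases Nat.eq_zero_or_pos (A i) with h0 | h0
    · have := hgA i
      rw [h0, mul_zero] at this
      omega
    · exact h0
  have hcop : ∀ i, Nat.Coprime (A i) (B i) := by
    intro i
    rw [hA, hB, hg]
    exact Nat.coprime_div_gcd_div_gcd (Nat.gcd_pos_of_pos_left _ hDpos)
  have hpA : ∀ i p, p.Prime → p ∣ M → p ∣ A i := by
    intro i p hp hpM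
    rw [hA, hg]
    refine dvd_div_gcd (k := E) hp (by rw [hD]; exact pow_dvd_pow_of_dvd hpM E) ?_
    intro h2
    have h4 := Nat.le_of_dvd (by omega) h2
    have h5 : E < p ^ E := Nat.lt_pow_self hp.one_lt
    have h6 := hEv i
    omega
  have hpval : ∀ i p (m : ℕ), p.Prime → p ∣ M → ¬ p ∣ A i * m + B i := by
    intro i p m hp hpM hd
    have h1 := hpA i p hp hpM
    have h2 : p ∣ B i := (Nat.dvd_add_right (h1.mul_right _)).1 hd
    have h3 := Nat.dvd_gcd h1 h2
    rw [hcop i] at h3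
    exact hp.one_lt.ne' (Nat.dvd_one.1 h3)
  obtain ⟨C, hC⟩ := hall (fun i => (A i : ℤ)) (fun i => (B i : ℤ))
    (fun i => by exact_mod_cast hApos i)
    (by
      intro i j hij hh'
      obtain ⟨h1, h2⟩ := hh'
      have h1' : A i = A j := by exact_mod_cast h1
      have h2' : B i = B j := by exact_mod_cast h2
      have h3 : g i = g j := by
        have e1 := hgA i
        have e2 := hgA j
        rw [← h1', ← e1] at e2
        exact (Nat.eq_of_mul_eq_mul_right (hApos i) e2).symm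
      have h4 : n0 + h i = n0 + h j := by rw [← hgB i, ← hgB j, h3, h2']
      exact hij (hh (by omega)))
    (by
      intro p hp
      by_cases hpM : p ∣ M
      · refine ⟨0, fun i hd => ?_⟩
        apply hpval i p 0 hp hpM
        have : ((p : ℕ) : ℤ) ∣ ((A i * 0 + B i : ℕ) : ℤ) := by push_cast; exact_mod_cast hd
        exact_mod_cast this
      · have hkp : k < p := by
          by_contra hle
          apply hpM
          rw [hM]
          exact ((hp.dvd_factorial).2 (by omega)).mul_right _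
        have hpA' : ∀ i, ¬ p ∣ A i := by
          intro i hd
          apply hpM
          have h1 : p ∣ D := by rw [← hgA i]; exact hd.mul_left _
          rw [hD] at h1
          exact hp.dvd_of_dvd_pow h1
        obtain ⟨n, hn⟩ := exists_good hp hkp A B hpA'
        refine ⟨n, fun i hd => hn i ?_⟩
        exact_mod_cast hd)
    (fun i => r i - om (g i))
    (by
      intro i
      have h1 := om_dvd_le (hgD i) hDpos.ne'
      have h2 := hr i
      show r0 ≤ r i - om (g i)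
      omega)
  refine ⟨D * C, fun N => ?_⟩
  obtain ⟨m, hm, hm2⟩ := hC (N + D + n0)
  refine ⟨D * m + n0, ?_, ?_, ?_⟩
  · have : m ≤ D * m := Nat.le_mul_of_pos_left _ hDpos
    omega
  · have h1 : q ∣ D := (Dvd.intro_left _ hM.symm).trans hMD
    have h2 : D * m ≡ 0 [MOD q] := (Nat.modEq_zero_iff_dvd).2 (h1.mul_right _)
    have h3 : n0 ≡ a [MOD q] := by
      rw [hn0]
      have : q ≡ 0 [MOD q] := (Nat.modEq_zero_iff_dvd).2 dvd_rfl
      simpa using (Nat.ModEq.refl a).add this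
    simpa using h2.add h3
  · intro i
    obtain ⟨c, s, h1, h2, h3, h4, h5⟩ := hm2 i
    have h1' : A i * m + B i = c * s := by exact_mod_cast h1
    have hval : D * m + n0 + h i = g i * (c * s) := by
      rw [← h1', mul_add, ← mul_assoc, hgA, hgB]
      ring
    have hcopv : Nat.Coprime (g i) (c * s) := by
      rw [← h1', Nat.coprime_iff_gcd_eq_one]
      by_contra hne
      obtain ⟨p, hp, hpd⟩ := Nat.exists_prime_and_dvd hne
      have h6 : p ∣ M := by
        have : p ∣ D := (hpd.trans (Nat.gcd_dvd_left _ _)).trans (hgD i)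
        rw [hD] at this
        exact hp.dvd_of_dvd_pow this
      exact hpval i p m hp h6 (hpd.trans (Nat.gcd_dvd_right _ _))
    refine ⟨?_, g i * c, s, ?_, ?_, h3, ?_⟩
    · have h6 : om (D * m + n0 + h i) = r i := by
        rw [hval, om_mul hcopv]
        have h7 : om (c * s) = r i - om (g i) := h5
        rw [h7]
        have h8 := om_dvd_le (hgD i) hDpos.ne'
        have h9 := hr i
        omega
      exact h6
    · rw [hval]; ring
    · exact Nat.mul_le_mul (Nat.le_of_dvd hDpos (hgD i)) h2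
    · intro p hp hps
      have h6 := h4 p hp hps
      have h7 : D * m + n0 ≤ m * m := by
        have h8 : D + n0 ≤ m := by omega
        have h9 : 1 ≤ m := by omega
        calc D * m + n0 ≤ D * m + n0 * m := by
              have := Nat.le_mul_of_pos_right n0 h9
              omega
          _ = (D + n0) * m := by ring
          _ ≤ m * m := Nat.mul_le_mul_right _ h8
      calc D * m + n0 ≤ m * m := h7
        _ ≤ p ^ R * p ^ R := Nat.mul_le_mul h6 h6
        _ = p ^ (2 * R) := by ring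

/-- the same with an infinite set -/
theorem shifts_infinite (k : ℕ) : ∃ r0 R : ℕ, ∀ h : Fin k → ℕ, Function.Injective h →
    ∀ q a : ℕ, 0 < q → ∀ r : Fin k → ℕ, (∀ i, r0 + q.primeFactors.card ≤ r i) →
    ∃ C : ℕ, {n : ℕ | n ≡ a [MOD q] ∧
      ∀ i, (n + h i).primeFactors.card = r i ∧ ∃ c s : ℕ, n + h i = c * s ∧ c ≤ C ∧
        Squarefree s ∧ ∀ p : ℕ, p.Prime → p ∣ s → n ≤ p ^ R}.Infinite := by
  obtain ⟨r0, R, H⟩ := shifts k
  refine ⟨r0, R, fun h hh q a hq r hr => ?_⟩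
  obtain ⟨C, hC⟩ := H h hh q a hq r hr
  refine ⟨C, Set.infinite_of_forall_exists_gt fun N => ?_⟩
  obtain ⟨n, hn, h1, h2⟩ := hC (N + 1)
  exact ⟨n, ⟨h1, h2⟩, by omega⟩

/-- consecutive odd integers -/
theorem odd_infinite (k : ℕ) : ∃ r0 R : ℕ, ∀ r : Fin k → ℕ, (∀ i, r0 ≤ r i) →
    ∃ C : ℕ, {n : ℕ | Odd n ∧ ∀ i : Fin k, (n + 2 * i).primeFactors.card = r i ∧
      ∃ c s : ℕ, n + 2 * i = c * s ∧ c ≤ C ∧
        Squarefree s ∧ ∀ p : ℕ, p.Prime → p ∣ s → n ≤ p ^ R}.Infinite := by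
  obtain ⟨r0, R, H⟩ := shifts_infinite k
  refine ⟨r0 + 1, R, fun r hr => ?_⟩
  obtain ⟨C, hC⟩ := H (fun i => 2 * (i : ℕ)) (fun i j h => Fin.ext (by simp only at h; omega)) 2 1
    (by norm_num) r (fun i => by
      have h1 : (2 : ℕ).primeFactors.card = 1 := by
        rw [Nat.prime_two.primeFactors]; rfl
      rw [h1]; exact hr i)
  refine ⟨C, hC.mono ?_⟩
  rintro n ⟨h1, h2⟩
  exact ⟨Nat.odd_iff.2 h1, h2⟩

/-- consecutive integers -/
theorem consecutive_infinite (k : ℕ) : ∃ r0 R : ℕ, ∀ r : Fin k → ℕ, (∀ i, r0 ≤ r i) →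
    ∃ C : ℕ, {n : ℕ | ∀ i : Fin k, (n + i).primeFactors.card = r i ∧
      ∃ c s : ℕ, n + i = c * s ∧ c ≤ C ∧
        Squarefree s ∧ ∀ p : ℕ, p.Prime → p ∣ s → n ≤ p ^ R}.Infinite := by
  obtain ⟨r0, R, H⟩ := shifts_infinite k
  refine ⟨r0, R, fun r hr => ?_⟩
  obtain ⟨C, hC⟩ := H (fun i => (i : ℕ)) (fun i j h => Fin.ext h) 1 0 one_pos r
    (fun i => by simpa using hr i)
  refine ⟨C, hC.mono ?_⟩
  rintro n ⟨_, h2⟩
  exact h2

end Pool.Agent.H447R3.PF
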